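import Mathlib

namespace Pool.Agent.H.MP_b30265_an
open MeasureTheory AddCircle Filter Topology Real

instance i2 : Fact (0 < 2 * π) := ⟨Real.two_pi_pos⟩

abbrev T := AddCircle (2 * π)
noncomputable abbrev m : Measure T := haarAddCircle

noncomputable def TP (d : ℕ) : Submodule ℂ C(T, ℂ) :=
  Submodule.span ℂ {f | ∃ j : ℤ, |j| ≤ d ∧ f = fourier j}

lemma TP_mono {d e : ℕ} (h : d ≤ e) : TP d ≤ TP e :=
  Submodule.span_mono fun _ ⟨j, hj, hf⟩ => ⟨j, hj.trans (by exact_mod_cast h), hf⟩

lemma four_mem {d : ℕ} {j : ℤ} (h : |j| ≤ d) : (fourier j : C(T, ℂ)) ∈ TP d :=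
  Submodule.subset_span ⟨j, h, rfl⟩

lemma TP_mul {d e : ℕ} {f g : C(T, ℂ)} (hf : f ∈ TP d) (hg : g ∈ TP e) : f * g ∈ TP (d + e) := by
  have : TP d * TP e ≤ TP (d + e) := by
    rw [TP, TP, Submodule.span_mul_span, Submodule.span_le]
    rintro _ ⟨_, ⟨i, hi, rfl⟩, _, ⟨j, hj, rfl⟩, rfl⟩
    have : (fourier i : C(T, ℂ)) * fourier j = fourier (i + j) := by
      ext x; simp
    show _ * _ ∈ TP (d + e)
    rw [this]
    exact four_mem ((abs_add_le i j).trans (by push_cast; omega))
  exact this (Submodule.mul_mem_mul hf hg)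

lemma cint {E : Type} [NormedAddCommGroup E] {f : T → E} (hf : Continuous f) (μ : Measure T)
    [IsFiniteMeasure μ] : Integrable f μ :=
  hf.integrable_of_hasCompactSupport (HasCompactSupport.of_compactSpace f)

lemma int_nsmul {E : Type} [NormedAddCommGroup E] [NormedSpace ℝ E] {N : ℕ} (hN : 0 < N)
    {g : T → E} (hg : Continuous g) : ∫ x, g (N • x) ∂m = ∫ x, g x ∂m := by
  have h := Measure.measurePreserving_zsmul (μ := m) (n := (N : ℤ)) (by omega)
  have := integral_map (μ := m) (φ := fun x : T => (N : ℤ) • x) (f := g)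
    h.measurable.aemeasurable hg.aestronglyMeasurable
  rw [h.map_eq] at this
  rw [this]
  simp

lemma int_four0 {N : ℕ} {j : ℤ} (h0 : j ≠ 0) (hj : |j| < N) (g : T → ℂ) :
    ∫ x, fourier j x * g (N • x) ∂m = 0 := by
  have hN : (0 : ℝ) < N := by
    have := abs_nonneg j
    have : 0 < N := by omega
    exact_mod_cast this
  let t : T := ((2 * π / N : ℝ) : T)
  have ht : N • t = 0 := by
    show N • ((2 * π / N : ℝ) : T) = 0
    rw [← AddCircle.coe_nsmul, nsmul_eq_mul, mul_div_cancel₀ _ hN.ne', AddCircle.coe_period]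
  have h1 := integral_add_right_eq_self (μ := m) (fun x => fourier j x * g (N • x)) t
  have h2 : ∀ x : T, fourier j (x + t) * g (N • (x + t)) = fourier j t * (fourier j x * g (N • x)) := by
    intro x
    rw [smul_add, ht, add_zero, fourier_apply, fourier_apply, fourier_apply, smul_add,
      toCircle_add, Circle.coe_mul]
    ring
  simp only [h2, integral_const_mul] at h1
  have h3 : fourier j t ≠ 1 := by
    show fourier j ((2 * π / N : ℝ) : T) ≠ 1
    rw [fourier_coe_apply, Ne, Complex.exp_eq_one_iff]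
    rintro ⟨n, hn⟩
    have hp : (π : ℂ) ≠ 0 := by exact_mod_cast Real.pi_ne_zero
    have hN' : (N : ℂ) ≠ 0 := by exact_mod_cast hN.ne'
    push_cast at hn
    field_simp at hn
    have : j = N * n := by exact_mod_cast hn
    rw [this, abs_mul, Nat.abs_cast] at hj
    have : n ≠ 0 := by rintro rfl; simp at this; exact h0 this
    have : 1 ≤ |n| := Int.one_le_abs this
    nlinarith [Int.natCast_nonneg N]
  have : (fourier j t - 1) * ∫ x, fourier j x * g (N • x) ∂m = 0 := by rw [sub_mul, h1]; ring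
  exact (mul_eq_zero.1 this).resolve_left (sub_ne_zero.2 h3)

lemma indepC {d N : ℕ} (h : d < N) {F : C(T, ℂ)} (hF : F ∈ TP d) {g : T → ℂ} (hg : Continuous g) :
    ∫ x, F x * g (N • x) ∂m = (∫ x, F x ∂m) * ∫ x, g x ∂m := by
  have hc : Continuous fun x : T => g (N • x) := hg.comp (continuous_nsmul N)
  induction hF using Submodule.span_induction with
  | mem f hf =>
    obtain ⟨j, hj, rfl⟩ := hf
    by_cases h0 : j = 0
    · subst h0
      simp [int_nsmul (by omega : 0 < N) hg]
    · have hj' : |j| < N := by omega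
      have := int_four0 h0 hj' (fun _ => 1)
      simp only [mul_one] at this
      rw [int_four0 h0 hj', this, zero_mul]
  | zero => simp
  | add f g _ _ h1 h2 =>
    simp only [ContinuousMap.add_apply, add_mul]
    rw [integral_add (cint (by fun_prop) _) (cint (by fun_prop) _), h1, h2,
      integral_add (cint f.continuous _) (cint g.continuous _), add_mul]
  | smul a f _ h1 =>
    simp only [ContinuousMap.smul_apply, smul_eq_mul, mul_assoc, integral_const_mul, h1]

def IsTP (d : ℕ) (f : T → ℝ) : Prop := ∃ F ∈ TP d, ∀ x, F x = f x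

lemma IsTP.cont {d : ℕ} {f : T → ℝ} (h : IsTP d f) : Continuous f := by
  obtain ⟨F, -, e⟩ := h
  have : f = fun x => (F x).re := by funext x; simp [e]
  rw [this]; fun_prop

lemma IsTP.mono {d e : ℕ} {f : T → ℝ} (h : IsTP d f) (hd : d ≤ e) : IsTP e f := by
  obtain ⟨F, hF, e⟩ := h
  exact ⟨F, TP_mono hd hF, e⟩

lemma tp_const (d : ℕ) (r : ℝ) : IsTP d fun _ => r :=
  ⟨(r : ℂ) • fourier 0, (TP d).smul_mem _ (four_mem (by simp)), by simp⟩

lemma IsTP.add {d : ℕ} {f g : T → ℝ} (h : IsTP d f) (h' : IsTP d g) : IsTP d fun x => f x + g x := by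
  obtain ⟨F, hF, e⟩ := h
  obtain ⟨G, hG, e'⟩ := h'
  exact ⟨F + G, add_mem hF hG, by simp [e, e']⟩

lemma IsTP.mul {d e : ℕ} {f g : T → ℝ} (h : IsTP d f) (h' : IsTP e g) :
    IsTP (d + e) fun x => f x * g x := by
  obtain ⟨F, hF, e⟩ := h
  obtain ⟨G, hG, e'⟩ := h'
  exact ⟨F * G, TP_mul hF hG, by simp [e, e']⟩

lemma IsTP.cmul {d : ℕ} {f : T → ℝ} (h : IsTP d f) (r : ℝ) : IsTP d fun x => r * f x := by
  simpa using (tp_const 0 r).mul h

lemma IsTP.pow {d : ℕ} {f : T → ℝ} (h : IsTP d f) (n : ℕ) : IsTP (n * d) fun x => f x ^ n := by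
  induction n with
  | zero => simpa using tp_const 0 1
  | succ n ih => simpa [pow_succ, add_mul] using ih.mul h

lemma IsTP.comp {d : ℕ} {f : T → ℝ} (h : IsTP d f) (N : ℕ) : IsTP (d * N) fun x => f (N • x) := by
  obtain ⟨F, hF, e⟩ := h
  let n : C(T, T) := ⟨fun x => N • x, continuous_nsmul N⟩
  refine ⟨F.comp n, ?_, fun x => e _⟩
  clear e
  induction hF using Submodule.span_induction with
  | mem f hf =>
    obtain ⟨j, hj, rfl⟩ := hf
    have : (fourier j : C(T, ℂ)).comp n = fourier (j * N) := by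
      ext x
      simp only [n, ContinuousMap.comp_apply, ContinuousMap.coe_mk, fourier_apply, mul_smul,
        natCast_zsmul]
    rw [this]
    refine four_mem ?_
    rw [abs_mul, Nat.abs_cast]; push_cast
    exact mul_le_mul_of_nonneg_right hj (Int.natCast_nonneg N)
  | zero => exact zero_mem _
  | add f g _ _ h1 h2 => exact add_mem h1 h2
  | smul a f _ h1 => exact (TP _).smul_mem a h1

lemma indep {d N : ℕ} (h : d < N) {f : T → ℝ} (hf : IsTP d f) {g : T → ℝ} (hg : Continuous g) :
    ∫ x, f x * g (N • x) ∂m = (∫ x, f x ∂m) * ∫ x, g x ∂m := by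
  obtain ⟨F, hF, e⟩ := hf
  have := indepC h hF (g := fun x => (g x : ℂ)) (by fun_prop)
  simp only [e, ← Complex.ofReal_mul, integral_complex_ofReal] at this
  exact_mod_cast this

noncomputable def c (x : T) : ℝ := (fourier 1 x).re

lemma tp_c : IsTP 1 c :=
  ⟨(1 / 2 : ℂ) • (fourier 1 + fourier (-1)), (TP 1).smul_mem _
    (add_mem (four_mem (by simp)) (four_mem (by simp))), fun x => by
      rw [ContinuousMap.smul_apply, ContinuousMap.add_apply, fourier_neg, Complex.add_conj, c]
      push_cast; simp⟩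

lemma c_coe (x : ℝ) : c (x : T) = cos x := by
  rw [c, fourier_coe_apply]
  have hp : (π : ℂ) ≠ 0 := by exact_mod_cast Real.pi_ne_zero
  have : 2 * (π : ℂ) * Complex.I * (1 : ℤ) * x / ((2 * π : ℝ) : ℂ) = x * Complex.I := by
    push_cast; field_simp
  rw [this, Complex.exp_ofReal_mul_I_re]

lemma abs_c (x : T) : |c x| ≤ 1 := by
  induction x using QuotientAddGroup.induction_on
  rw [c_coe]; exact abs_cos_le_one _

lemma c_three (x : T) : c (3 • x) = 4 * c x ^ 3 - 3 * c x := by
  induction x using QuotientAddGroup.induction_on with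
  | H x =>
    rw [← AddCircle.coe_nsmul, c_coe, c_coe, nsmul_eq_mul]
    push_cast
    exact cos_three_mul x

lemma int_c : ∫ x, c x ∂m = 0 := by
  have := int_four0 (N := 2) (j := 1) one_ne_zero (by simp) fun _ => 1
  simp only [mul_one] at this
  have h := integral_re (cint (fourier 1 : C(T, ℂ)).continuous m)
  rw [this] at h
  simpa [c] using h

lemma int_lin (r : ℝ) : ∫ x, (1 + r * c x) ∂m = 1 := by
  rw [integral_add (cint continuous_const _) (cint (tp_c.cmul r).cont _), integral_const_mul, int_c]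
  simp

lemma tp_lin (r : ℝ) : IsTP 1 fun x => 1 + r * c x := (tp_const 1 1).add (tp_c.cmul r)

lemma lin_nonneg {r : ℝ} (hr : |r| ≤ 1) (x : T) : 0 ≤ 1 + r * c x := by
  have : |r * c x| ≤ 1 := by rw [abs_mul]; exact mul_le_one₀ hr (abs_nonneg _) (abs_c x)
  linarith [neg_abs_le (r * c x)]

end Pool.Agent.H.MP_b30265_an
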