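import Mathlib
import Pool.Agent.H.MP_b30265_an.A

namespace Pool.Agent.H.MP_b30265_an
open MeasureTheory AddCircle Filter Topology Real Finset

noncomputable def P (l : ℕ → ℕ) (r : ℕ → ℝ) (n : ℕ) (x : T) : ℝ :=
  ∏ i ∈ range n, (1 + r i * c (l i • x))

def IsLim (p : ℕ → T → ℝ) (μ : Measure T) : Prop :=
  ∀ f : C(T, ℝ), Tendsto (fun n => ∫ x, f x * p n x ∂m) atTop (𝓝 (∫ x, f x ∂μ))

lemma tp_P (l : ℕ → ℕ) (r : ℕ → ℝ) (n : ℕ) : IsTP (∑ i ∈ range n, l i) (P l r n) := by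
  induction n with
  | zero => unfold P; simpa using tp_const 0 1
  | succ n ih =>
    have := ih.mul ((tp_lin (r n)).comp (l n))
    unfold P at this ⊢
    simpa [prod_range_succ, sum_range_succ] using this

lemma P_nonneg (l : ℕ → ℕ) {r : ℕ → ℝ} (hr : ∀ i, |r i| ≤ 1) (n : ℕ) (x : T) : 0 ≤ P l r n x :=
  prod_nonneg fun i _ => lin_nonneg (hr i) _

lemma l_bd {l : ℕ → ℕ} (h0 : 0 < l 0) (h3 : ∀ n, 3 * l n ≤ l (n + 1)) (n : ℕ) :
    n < l n ∧ 2 * ∑ i ∈ range n, l i ≤ l n := by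
  induction n with
  | zero => simpa using h0
  | succ n ih => rw [sum_range_succ]; have := h3 n; omega

lemma int_P {l : ℕ → ℕ} (h0 : 0 < l 0) (h3 : ∀ n, 3 * l n ≤ l (n + 1)) (r : ℕ → ℝ) (n : ℕ) :
    ∫ x, P l r n x ∂m = 1 := by
  induction n with
  | zero => simp [P]
  | succ n ih =>
    have hb := l_bd h0 h3 n
    have := indep (N := l n) (by omega) (tp_P l r n) (tp_lin (r n)).cont
    rw [ih, int_lin, mul_one] at this
    simpa [P, prod_range_succ] using this

lemma step_P {l : ℕ → ℕ} (h0 : 0 < l 0) (h3 : ∀ n, 3 * l n ≤ l (n + 1)) (r : ℕ → ℝ) {d : ℕ}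
    {F : C(T, ℂ)} (hF : F ∈ TP d) {n : ℕ} (hn : 2 * d ≤ n) :
    ∫ x, F x * P l r n x ∂m = ∫ x, F x * P l r (2 * d) x ∂m := by
  induction n, hn using Nat.le_induction with
  | base => rfl
  | succ n hn ih =>
    have hb := l_bd h0 h3 n
    obtain ⟨G, hG, e⟩ := tp_P l r n
    have hc := (tp_lin (r n)).cont
    have := indepC (N := l n) (by omega) (TP_mul hF hG)
      (g := fun x => ((1 + r n * c x : ℝ) : ℂ)) (by fun_prop)
    rw [integral_complex_ofReal, int_lin] at this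
    simp only [ContinuousMap.mul_apply, e, Complex.ofReal_one, mul_one] at this
    rw [← ih, ← this]
    simp only [P, prod_range_succ, Complex.ofReal_mul, mul_assoc]

lemma approx (g : C(T, ℂ)) {ε : ℝ} (hε : 0 < ε) : ∃ d, ∃ F ∈ TP d, ‖g - F‖ < ε := by
  have h : g ∈ closure ((Submodule.span ℂ (Set.range (@fourier (2 * π))) : Submodule ℂ C(T, ℂ)) :
      Set C(T, ℂ)) := by
    rw [← Submodule.topologicalClosure_coe, span_fourier_closure_eq_top]; trivial
  obtain ⟨F, hF, hd⟩ := Metric.mem_closure_iff.1 h ε hε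
  rw [dist_eq_norm] at hd
  suffices ∃ d, F ∈ TP d by obtain ⟨d, h⟩ := this; exact ⟨d, F, h, hd⟩
  clear hd
  induction hF using Submodule.span_induction with
  | mem f hf => obtain ⟨j, rfl⟩ := hf; exact ⟨j.natAbs, four_mem (by simp)⟩
  | zero => exact ⟨0, zero_mem _⟩
  | add f g _ _ h1 h2 =>
    obtain ⟨d, h1⟩ := h1
    obtain ⟨e, h2⟩ := h2
    exact ⟨d + e, add_mem (TP_mono (by omega) h1) (TP_mono (by omega) h2)⟩
  | smul a f _ h1 => obtain ⟨d, h1⟩ := h1; exact ⟨d, (TP d).smul_mem a h1⟩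

lemma cauchy_P {l : ℕ → ℕ} (h0 : 0 < l 0) (h3 : ∀ n, 3 * l n ≤ l (n + 1)) {r : ℕ → ℝ}
    (hr : ∀ i, |r i| ≤ 1) (f : C(T, ℝ)) : CauchySeq fun n => ∫ x, f x * P l r n x ∂m := by
  rw [Metric.cauchySeq_iff']
  intro ε hε
  let g : C(T, ℂ) := ⟨fun x => f x, by fun_prop⟩
  obtain ⟨d, F, hF, hd⟩ := approx g (half_pos hε)
  have key : ∀ n, ‖((∫ x, f x * P l r n x ∂m : ℝ) : ℂ) - ∫ x, F x * P l r n x ∂m‖ < ε / 2 := by
    intro n
    have hc := (tp_P l r n).cont
    rw [← integral_complex_ofReal, ← integral_sub (cint (by fun_prop) _) (cint (by fun_prop) _)]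
    refine lt_of_le_of_lt (norm_integral_le_of_norm_le
      (g := fun x => ‖g - F‖ * P l r n x) (cint (by fun_prop) _) (ae_of_all _ fun x => ?_)) ?_
    · have := (g - F).norm_coe_le_norm x
      push_cast
      rw [← sub_mul, norm_mul, Complex.norm_real, Real.norm_of_nonneg (P_nonneg l hr n x)]
      exact mul_le_mul_of_nonneg_right this (P_nonneg l hr n x)
    · rw [integral_const_mul, int_P h0 h3, mul_one]; exact hd
  refine ⟨2 * d, fun n hn => ?_⟩
  have k1 := key n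
  have k2 := key (2 * d)
  rw [step_P h0 h3 r hF hn] at k1
  rw [dist_eq_norm, ← Complex.norm_real, Complex.ofReal_sub]
  have := norm_sub_le_norm_sub_add_norm_sub ((∫ x, f x * P l r n x ∂m : ℝ) : ℂ)
    (∫ x, F x * P l r (2 * d) x ∂m) ((∫ x, f x * P l r (2 * d) x ∂m : ℝ) : ℂ)
  rw [norm_sub_rev] at k2
  linarith

lemma exists_lim {l : ℕ → ℕ} (h0 : 0 < l 0) (h3 : ∀ n, 3 * l n ≤ l (n + 1)) {r : ℕ → ℝ}
    (hr : ∀ i, |r i| ≤ 1) : ∃ μ : Measure T, IsProbabilityMeasure μ ∧ IsLim (P l r) μ := by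
  have hc := fun n => (tp_P l r n).cont
  let ν : ℕ → ProbabilityMeasure T := fun n =>
    ⟨m.withDensity fun x => ENNReal.ofReal (P l r n x), ⟨by
      rw [withDensity_apply _ MeasurableSet.univ, Measure.restrict_univ,
        ← ofReal_integral_eq_lintegral_ofReal (cint (hc n) _) (ae_of_all _ (P_nonneg l hr n)),
        int_P h0 h3, ENNReal.ofReal_one]⟩⟩
  have hν : ∀ n (f : C(T, ℝ)), ∫ x, f x ∂(ν n : Measure T) = ∫ x, f x * P l r n x ∂m := by
    intro n f
    show ∫ x, f x ∂(m.withDensity fun x => ENNReal.ofReal (P l r n x)) = _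
    rw [integral_withDensity_eq_integral_toReal_smul (hc n).measurable.ennreal_ofReal
      (ae_of_all _ fun _ => ENNReal.ofReal_lt_top)]
    refine integral_congr_ae (ae_of_all _ fun x => ?_)
    simp only [ENNReal.toReal_ofReal (P_nonneg l hr n x), smul_eq_mul, mul_comm]
  obtain ⟨μ, -, hμ⟩ := isCompact_univ.ultrafilter_le_nhds ((hyperfilter ℕ).map ν) (by simp)
  refine ⟨μ, inferInstance, fun f => ?_⟩
  obtain ⟨L, hL⟩ := cauchySeq_tendsto_of_complete (cauchy_P h0 h3 hr f)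
  have h1 : Tendsto ν (hyperfilter ℕ) (𝓝 μ) := hμ
  have h2 := ProbabilityMeasure.tendsto_iff_forall_integral_tendsto.1 h1
    (BoundedContinuousFunction.mkOfCompact f)
  simp only [BoundedContinuousFunction.mkOfCompact_apply, hν] at h2
  have h4 := hL.mono_left (Nat.hyperfilter_le_atTop)
  rw [← tendsto_nhds_unique h4 h2]
  exact hL

lemma blocks {N D : ℕ → ℕ} (h0 : 0 < N 0) (hN : ∀ k, (D k + 1) * N k ≤ N (k + 1))
    {g : ℕ → T → ℝ} (hg : ∀ k, IsTP (D k) (g k)) (K : ℕ) :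
    ∫ x, ∏ k ∈ range K, g k (N k • x) ∂m = ∏ k ∈ range K, ∫ x, g k x ∂m := by
  suffices ∃ S < N K, IsTP S (fun x => ∏ k ∈ range K, g k (N k • x)) ∧
      ∫ x, ∏ k ∈ range K, g k (N k • x) ∂m = ∏ k ∈ range K, ∫ x, g k x ∂m from this.choose_spec.2.2
  induction K with
  | zero => exact ⟨0, h0, by simpa using tp_const 0 1, by simp⟩
  | succ K ih =>
    obtain ⟨S, hS, h1, h2⟩ := ih
    refine ⟨S + D K * N K, by have := hN K; nlinarith, ?_, ?_⟩
    · simpa [prod_range_succ] using h1.mul ((hg K).comp (N K))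
    · simp only [prod_range_succ]
      rw [indep hS h1 (hg K).cont, h2]

lemma ac_of {μ ν : Measure T} [IsFiniteMeasure μ] [IsFiniteMeasure ν] (C : ℝ)
    (h : ∀ t : ℝ, 0 < t → ∀ g : C(T, ℝ), (∀ x, 0 ≤ g x ∧ g x ≤ 1) →
      ∫ x, g x ∂μ ≤ t * C + t⁻¹ * ∫ x, g x ∂ν) : μ ≪ ν := by
  have cl : ∀ F : Set T, IsClosed F → ν F = 0 → μ F = 0 := by
    intro F hF h0
    have lim : ∀ (ρ : Measure T) [IsFiniteMeasure ρ],
        Tendsto (fun n => ∫ x, (hF.apprSeq n x : ℝ) ∂ρ) atTop (𝓝 (ρ.real F)) := by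
      intro ρ _
      have := (ENNReal.tendsto_toReal (measure_ne_top ρ F)).comp
        (HasOuterApproxClosed.tendsto_lintegral_apprSeq hF ρ)
      refine this.congr fun n => ?_
      exact BoundedContinuousFunction.toReal_lintegral_coe_eq_integral _ _
    have k : ∀ t : ℝ, 0 < t → μ.real F ≤ t * C := by
      intro t ht
      have := le_of_tendsto_of_tendsto' (lim μ) (((lim ν).const_mul t⁻¹).const_add (t * C))
        fun n => h t ht ⟨fun x => (hF.apprSeq n x : ℝ), by fun_prop⟩ fun x =>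
          ⟨NNReal.coe_nonneg _, by exact_mod_cast HasOuterApproxClosed.apprSeq_apply_le_one hF n x⟩
      simpa [Measure.real, h0] using this
    have t0 : Tendsto (fun t : ℝ => t * C) (𝓝[>] 0) (𝓝 (0 * C)) :=
      (tendsto_id.mono_left nhdsWithin_le_nhds).mul_const C
    have := ge_of_tendsto t0 (eventually_nhdsWithin_of_forall k)
    rw [zero_mul] at this
    exact (measureReal_eq_zero_iff (measure_ne_top μ F)).1 (le_antisymm this measureReal_nonneg)
  refine Measure.AbsolutelyContinuous.mk fun A hA h0 => ?_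
  by_contra hne
  obtain ⟨K, hKA, hK, hpos⟩ := hA.exists_lt_isCompact (μ := μ) (pos_iff_ne_zero.2 hne)
  exact hpos.ne' (cl K hK.isClosed (measure_mono_null hKA h0))

lemma not_ac {μ ν : Measure T} [IsFiniteMeasure μ] [IsFiniteMeasure ν] (F : ℕ → T → ℝ)
    (hc : ∀ j, Continuous (F j)) (hF : ∀ j x, 0 ≤ F j x ∧ F j x ≤ 1)
    (hν : Summable fun j => ∫ x, F j x ∂ν) {e : ℝ} (he : 0 < e) (hμ : ∀ j, e ≤ ∫ x, F j x ∂μ) :
    ¬ μ ≪ ν := by
  intro hac
  have h1 : ∫⁻ x, ∑' j, ENNReal.ofReal (F j x) ∂ν ≠ ⊤ := by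
    rw [lintegral_tsum fun j => (hc j).measurable.ennreal_ofReal.aemeasurable]
    simp only [← fun j => ofReal_integral_eq_lintegral_ofReal (cint (hc j) ν)
      (ae_of_all _ fun x => (hF j x).1)]
    rw [← ENNReal.ofReal_tsum_of_nonneg (fun j => integral_nonneg fun x => (hF j x).1) hν]
    exact ENNReal.ofReal_ne_top
  have h2 := ae_lt_top' (AEMeasurable.tsum
    fun j => (hc j).measurable.ennreal_ofReal.aemeasurable) h1
  have h3 : ∀ᵐ x ∂μ, Tendsto (fun j => F j x) atTop (𝓝 0) := by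
    filter_upwards [hac.ae_le h2] with x hx
    have := (ENNReal.tendsto_toReal ENNReal.zero_ne_top).comp
      (ENNReal.tendsto_atTop_zero_of_tsum_ne_top hx.ne)
    refine this.congr fun j => ?_
    exact ENNReal.toReal_ofReal (hF j x).1
  have h4 := tendsto_integral_of_dominated_convergence (μ := μ) (fun _ => (1 : ℝ))
    (fun j => (hc j).aestronglyMeasurable) (integrable_const _)
    (fun j => ae_of_all _ fun x => by rw [Real.norm_of_nonneg (hF j x).1]; exact (hF j x).2) h3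
  have := ge_of_tendsto' h4 hμ
  simp at this
  linarith

end Pool.Agent.H.MP_b30265_an
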