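import Mathlib
import Pool.Agent.H.MP_b30265_an.B

namespace Pool.Agent.H.MP_b30265_an
open MeasureTheory AddCircle Filter Topology Real Finset

noncomputable def h (n : ℕ) (y : T) : ℝ := ((1 - c y) / 2) ^ n
noncomputable def w (n : ℕ) : ℝ := ∫ y, h n y ∂m

lemma tp_h (n : ℕ) : IsTP n (h n) := by
  have := (((tp_lin (-1)).cmul (1 / 2)).pow n)
  rw [mul_one] at this
  convert this using 1
  funext y; rw [h]; congr 1; ring

lemma h_bd (n : ℕ) (y : T) : 0 ≤ h n y ∧ h n y ≤ 1 := by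
  have := abs_le.1 (abs_c y)
  exact ⟨pow_nonneg (by linarith) _, pow_le_one₀ (by linarith) (by linarith)⟩

lemma w_eq (n : ℕ) : w n = ∏ i ∈ range n, (2 * (i : ℝ) + 1) / (2 * i + 2) := by
  rw [w, integral_haarAddCircle, ← AddCircle.intervalIntegral_preimage (2 * π) 0, zero_add]
  have : ∀ x : ℝ, h n (x : T) = sin (x / 2) ^ (2 * n) := by
    intro x
    rw [h, c_coe, pow_mul, sin_sq_eq_half_sub, mul_div_cancel₀ _ two_ne_zero]
    congr 1; ring
  simp only [this]
  rw [intervalIntegral.integral_comp_div (fun x => sin x ^ (2 * n)) two_ne_zero, zero_div,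
    mul_div_cancel_left₀ _ two_ne_zero, integral_sin_pow_even]
  have := Real.pi_ne_zero
  simp only [smul_eq_mul]
  field_simp

lemma w_succ (n : ℕ) : w (n + 1) = w n * ((2 * n + 1) / (2 * n + 2)) := by
  rw [w_eq, w_eq, prod_range_succ]

lemma w_nonneg (n : ℕ) : 0 ≤ w n := integral_nonneg fun y => (h_bd n y).1

lemma w_bd (n : ℕ) : (2 * n + 1) * w n ^ 2 ≤ 1 ∧ 1 ≤ (4 * n + 1) * w n ^ 2 := by
  induction n with
  | zero => simp [w_eq]
  | succ n ih =>
    rw [w_succ, mul_pow, div_pow]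
    have hn : (0 : ℝ) ≤ n := n.cast_nonneg
    have hw := sq_nonneg (w n)
    push_cast
    rw [← mul_div_assoc, ← mul_div_assoc, ← mul_div_assoc, div_le_one (by positivity),
      one_le_div (by positivity)]
    obtain ⟨h1, h2⟩ := ih
    constructor
    · nlinarith [mul_le_mul_of_nonneg_left h1 (by positivity : (0 : ℝ) ≤ (2 * n + 1) * (2 * n + 3))]
    · nlinarith [mul_le_mul_of_nonneg_left h2 (by positivity : (0 : ℝ) ≤ (2 * n + 2) ^ 2)]

lemma int_h1 (n : ℕ) : ∫ y, h n y * (1 + c y) ∂m = w n / (n + 1) := by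
  have : ∀ y, h n y * (1 + c y) = 2 * h n y - 2 * h (n + 1) y := by
    intro y; simp only [h, pow_succ]; ring
  simp only [this]
  rw [integral_sub (cint ((tp_h _).cmul 2).cont _) (cint ((tp_h _).cmul 2).cont _),
    integral_const_mul, integral_const_mul]
  show 2 * w n - 2 * w (n + 1) = _
  rw [w_succ]; field_simp; ring

noncomputable def Q (p q : ℝ) (y : T) : ℝ := (1 + p * c y) * (1 + q * c (3 • y))

lemma tp_Q (p q : ℝ) : IsTP 4 (Q p q) := by
  have := (tp_lin p).mul ((tp_lin q).comp 3)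
  unfold Q
  exact this

lemma int_Q (p q : ℝ) : ∫ y, Q p q y ∂m = 1 := by
  have := indep (N := 3) (by norm_num) (tp_lin p) (tp_lin q).cont
  rwa [int_lin, int_lin, mul_one] at this

lemma c3_le (y : T) : 1 + c (3 • y) ≤ 9 * (1 + c y) := by
  have := abs_le.1 (abs_c y)
  rw [c_three]
  nlinarith [mul_nonneg (by linarith : 0 ≤ 1 + c y) (by nlinarith : 0 ≤ 9 - (2 * c y - 1) ^ 2)]

lemma beta_le (n : ℕ) {d : ℝ} (h0 : 0 ≤ d) (h1 : d ≤ 1) :
    ∫ y, h n y * Q (1 - d) (-1 * (1 - d)) y ∂m ≤ 2 * (d * w n + w n / (n + 1)) := by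
  have hc := tp_c.cont
  have hh := (tp_h n).cont
  have hq := (tp_Q (1 - d) (-1 * (1 - d))).cont
  rw [← int_h1, w, ← integral_const_mul, ← integral_add (cint (by fun_prop) _)
    (cint (by fun_prop) _), ← integral_const_mul]
  refine integral_mono (cint (by fun_prop) _) (cint (by fun_prop) _) fun y => ?_
  have a1 := abs_le.1 (abs_c y)
  have a3 := abs_le.1 (abs_c (3 • y))
  have b := (h_bd n y).1
  have : Q (1 - d) (-1 * (1 - d)) y ≤ 2 * (d + (1 + c y)) := by
    rw [Q, mul_comm]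
    exact mul_le_mul (by nlinarith) (by nlinarith) (by nlinarith) (by norm_num)
  show h n y * _ ≤ 2 * (d * h n y + h n y * (1 + c y))
  nlinarith [mul_le_mul_of_nonneg_left this b]

lemma alpha_ge (n : ℕ) {d e : ℝ} (h0 : 0 ≤ d) (he : 0 ≤ e) (h1 : d + e ≤ 1) :
    e * (w n - 9 * (w n / (n + 1))) ≤ ∫ y, h n y * Q (1 - d - e) (-1 * (1 - d)) y ∂m := by
  have hc := tp_c.cont
  have hh := (tp_h n).cont
  have hq := (tp_Q (1 - d - e) (-1 * (1 - d))).cont
  rw [← int_h1, w, ← integral_const_mul, ← integral_sub (cint (by fun_prop) _)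
    (cint (by fun_prop) _), ← integral_const_mul]
  refine integral_mono (cint (by fun_prop) _) (cint (by fun_prop) _) fun y => ?_
  have a1 := abs_le.1 (abs_c y)
  have a3 := abs_le.1 (abs_c (3 • y))
  have b := (h_bd n y).1
  have k := c3_le y
  have : e * (1 - 9 * (1 + c y)) ≤ Q (1 - d - e) (-1 * (1 - d)) y := by
    rw [Q]
    calc e * (1 - 9 * (1 + c y)) ≤ e * (1 + -1 * (1 - d) * c (3 • y)) :=
          mul_le_mul_of_nonneg_left (by nlinarith) he
      _ ≤ _ := mul_le_mul_of_nonneg_right (by nlinarith) (by nlinarith)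
  show e * (h n y - 9 * (h n y * (1 + c y))) ≤ h n y * _
  nlinarith [mul_le_mul_of_nonneg_left this b]

noncomputable def HH (b e : ℝ) (y : T) : ℝ := Q (b - 2 * e) b y + 9 * e ^ 2

lemma tp_H (b e : ℝ) : IsTP 4 (HH b e) := by
  have := (tp_Q (b - 2 * e) b).add (tp_const 4 (9 * e ^ 2))
  unfold HH
  exact this

lemma int_H (b e : ℝ) : ∫ y, HH b e y ∂m = 1 + 9 * e ^ 2 := by
  unfold HH
  rw [integral_add (cint (tp_Q _ _).cont _) (integrable_const _), int_Q]
  simp

lemma Q_sq {b : ℝ} (h0 : 0 ≤ b) (h1 : b ≤ 1) (e : ℝ) (y : T) :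
    Q (b - e) b y ^ 2 ≤ Q b b y * HH b e y := by
  have a1 := abs_le.1 (abs_c y)
  have a3 := abs_le.1 (abs_c (3 • y))
  have k := c3_le y
  have r0 : 0 ≤ 1 + b * c (3 • y) := by nlinarith
  have r1 : c y ^ 2 * (1 + b * c (3 • y)) ≤ 9 * (1 + b * c y) := by
    have : c y ^ 2 ≤ 1 := by nlinarith
    nlinarith [mul_le_mul_of_nonneg_left k h0]
  have := mul_nonneg (mul_nonneg r0 (sq_nonneg e)) (sub_nonneg.2 r1)
  unfold HH Q
  nlinarith

lemma amgm {g A B H t : ℝ} (g0 : 0 ≤ g) (g1 : g ≤ 1) (hB : 0 ≤ B) (hH : 0 ≤ H) (ht : 0 < t)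
    (h : A ^ 2 ≤ B * H) : g * A ≤ t * H + t⁻¹ * (g * B) := by
  have e : (t * H) * (t⁻¹ * (g * B)) = g * (B * H) := by field_simp
  have x0 : 0 ≤ t * H := by positivity
  have y0 : 0 ≤ t⁻¹ * (g * B) := by positivity
  refine le_of_sq_le_sq ?_ (by positivity)
  have : (g * A) ^ 2 ≤ g * (B * H) := by
    have := mul_le_mul_of_nonneg_left h g0
    nlinarith [mul_nonneg g0 (sq_nonneg A)]
  nlinarith [mul_nonneg x0 y0]

end Pool.Agent.H.MP_b30265_an
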