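import Mathlib
import Pool.Agent.H.MP_b30265_an.C

namespace Pool.Agent.H.MP_b30265_an
open MeasureTheory AddCircle Filter Topology Real Finset

def M (j : ℕ) : ℕ := 16 ^ (j + 2)
noncomputable def δ (j : ℕ) : ℝ := 1 / (M j + 1)
noncomputable def ε (j : ℕ) : ℝ := 1 / 2 * (1 / 8) ^ j
def J (k : ℕ) : ℕ := Nat.log 32 k
def N : ℕ → ℕ
  | 0 => 1
  | k + 1 => (M (J k) + 9) * N k
def l (n : ℕ) : ℕ := if n % 2 = 0 then N (n / 2) else 3 * N (n / 2)
noncomputable def bb (k : ℕ) : ℝ := 1 - δ (J k)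
noncomputable def aa (k : ℕ) : ℝ := 1 - δ (J k) - ε (J k)
noncomputable def r (p : ℕ → ℝ) (s : ℝ) (n : ℕ) : ℝ :=
  if n % 2 = 0 then p (n / 2) else s * bb (n / 2)

lemma l0 : 0 < l 0 := by simp [l, N]

lemma l3 (n : ℕ) : 3 * l n ≤ l (n + 1) := by
  obtain ⟨k, rfl | rfl⟩ := Nat.even_or_odd' n
  · rw [l, l, if_pos (by omega), if_neg (by omega), show (2 * k + 1) / 2 = 2 * k / 2 by omega]
  · rw [l, l, if_neg (by omega), if_pos (by omega), show (2 * k + 1 + 1) / 2 = k + 1 by omega,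
      show (2 * k + 1) / 2 = k by omega, N]
    nlinarith [Nat.zero_le (M (J k) * N k)]

lemma M_ge (j : ℕ) : (17 : ℝ) ≤ M j := by
  have : 16 ^ 2 ≤ M j := Nat.pow_le_pow_right (by norm_num) (by omega)
  have : 17 ≤ M j := by omega
  exact_mod_cast this

lemma δ_bd (j : ℕ) : 0 < δ j ∧ δ j ≤ 1 / 4 := by
  have := M_ge j
  exact ⟨by unfold δ; positivity, one_div_le_one_div_of_le (by norm_num) (by linarith)⟩

lemma ε_bd (j : ℕ) : 0 < ε j ∧ ε j ≤ 1 / 2 := by
  have : (1 / 8 : ℝ) ^ j ≤ 1 := pow_le_one₀ (by norm_num) (by norm_num)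
  exact ⟨by unfold ε; positivity, by unfold ε; linarith⟩

lemma bb_bd (k : ℕ) : 0 ≤ bb k ∧ bb k < 1 := by
  have := δ_bd (J k); unfold bb; constructor <;> linarith

lemma aa_bd (k : ℕ) : 0 ≤ aa k ∧ aa k < 1 := by
  have := δ_bd (J k); have := ε_bd (J k); unfold aa; constructor <;> linarith

lemma r_bd {p : ℕ → ℝ} (hp : ∀ k, 0 ≤ p k ∧ p k < 1) {s : ℝ} (hs : |s| = 1) (n : ℕ) :
    |r p s n| < 1 := by
  unfold r
  split_ifs
  · rw [abs_of_nonneg (hp _).1]; exact (hp _).2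
  · rw [abs_mul, hs, one_mul, abs_of_nonneg (bb_bd _).1]; exact (bb_bd _).2

lemma P_two (p : ℕ → ℝ) (s : ℝ) (K : ℕ) (x : T) :
    P l (r p s) (2 * K) x = ∏ k ∈ range K, Q (p k) (s * bb k) (N k • x) := by
  induction K with
  | zero => simp [P]
  | succ K ih =>
    have e0 : (2 * K) % 2 = 0 := by omega
    have e1 : ¬ (2 * K + 1) % 2 = 0 := by omega
    have e2 : (2 * K + 1) / 2 = K := by omega
    have e3 : 2 * K / 2 = K := by omega
    rw [prod_range_succ, ← ih, mul_add, P, P, prod_range_succ, prod_range_succ, mul_assoc, Q]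
    simp only [r, l, if_pos e0, if_neg e1, e2, e3, mul_smul]

lemma blk {g : ℕ → T → ℝ} (hg : ∀ k, IsTP (M (J k) + 4) (g k)) (K : ℕ) :
    ∫ x, ∏ k ∈ range K, g k (N k • x) ∂m = ∏ k ∈ range K, ∫ x, g k x ∂m :=
  blocks (D := fun k => M (J k) + 4) (by simp [N])
    (fun k => by rw [N]; exact Nat.mul_le_mul_right _ (by omega)) hg K

lemma two_top : Tendsto (fun K : ℕ => 2 * K) atTop atTop :=
  tendsto_id.const_mul_atTop' (by norm_num)

lemma lim_prod {p : ℕ → ℝ} {s : ℝ} {μ : Measure T} (hμ : IsLim (P l (r p s)) μ) (I : Finset ℕ)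
    {u : ℕ → T → ℝ} (hu : ∀ k, IsTP (M (J k)) (u k)) :
    ∫ x, ∏ k ∈ I, u k (N k • x) ∂μ = ∏ k ∈ I, ∫ y, u k y * Q (p k) (s * bb k) y ∂m := by
  have hc : Continuous fun x : T => ∏ k ∈ I, u k (N k • x) :=
    continuous_finsetProd _ fun k _ => (hu k).cont.comp (continuous_nsmul _)
  refine tendsto_nhds_unique ((hμ ⟨_, hc⟩).comp two_top) (tendsto_const_nhds.congr' ?_)
  obtain ⟨K0, hK⟩ := I.exists_nat_subset_range
  filter_upwards [eventually_ge_atTop K0] with K hK0
  have hI : I ⊆ range K := hK.trans (range_mono hK0)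
  have hg : ∀ k, IsTP (M (J k) + 4)
      fun y => (if k ∈ I then u k y else 1) * Q (p k) (s * bb k) y := by
    intro k
    refine IsTP.mul ?_ (tp_Q _ _)
    split_ifs
    · exact hu k
    · exact tp_const _ _
  have := blk hg K
  simp only [prod_mul_distrib, prod_ite_mem, inter_eq_right.2 hI] at this
  simp only [Function.comp_apply, ContinuousMap.coe_mk, P_two, this]
  rw [← prod_subset hI fun k _ hk => by simp [hk, int_Q]]
  exact prod_congr rfl fun k hk => by simp [hk]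

def I (j : ℕ) : Finset ℕ := Ico (32 ^ j) (32 ^ (j + 1))

lemma J_eq {j k : ℕ} (h : k ∈ I j) : J k = j :=
  Nat.log_eq_of_pow_le_of_lt_pow (mem_Ico.1 h).1 (mem_Ico.1 h).2

lemma card_I (j : ℕ) : (I j).card = 31 * 32 ^ j := by
  rw [I, Nat.card_Ico, pow_succ]; omega

lemma sum_ε (K : ℕ) : ∑ k ∈ range K, ε (J k) ^ 2 ≤ 17 := by
  have h : ∀ j, ∑ k ∈ range (32 ^ j), ε (J k) ^ 2 ≤ 17 - 16 * (1 / 2) ^ j := by
    intro j
    induction j with
    | zero => simp [ε, J]; norm_num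
    | succ j ih =>
      rw [← sum_range_add_sum_Ico _ (Nat.pow_le_pow_right (by norm_num) j.le_succ)]
      have : ∑ k ∈ I j, ε (J k) ^ 2 = 31 / 4 * (1 / 2) ^ j := by
        rw [sum_congr rfl fun k hk => by rw [J_eq hk], sum_const, card_I, nsmul_eq_mul, ε, mul_pow,
          ← pow_mul, mul_comm j 2, pow_mul, show (1 / 2 : ℝ) ^ j = 32 ^ j * ((1 / 8) ^ 2) ^ j by
            rw [← mul_pow]; norm_num]
        push_cast; ring
      rw [I] at this
      rw [this, pow_succ]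
      have : (0 : ℝ) < (1 / 2) ^ j := by positivity
      linarith
  have h1 : (0 : ℝ) < (1 / 2) ^ K := by positivity
  have h2 := sum_le_sum_of_subset_of_nonneg (f := fun k => ε (J k) ^ 2)
    (range_mono (Nat.lt_pow_self (by norm_num : 1 < 32) (n := K)).le) fun _ _ _ => sq_nonneg _
  linarith [h K]

lemma Q_pos {p q : ℝ} (hp : |p| < 1) (hq : |q| < 1) (y : T) : 0 < Q p q y := by
  have : ∀ {p : ℝ} (y : T), |p| < 1 → 0 < 1 + p * c y := by
    intro p y hp
    have : |p * c y| < 1 := by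
      rw [abs_mul]; exact mul_lt_one_of_nonneg_of_lt_one_left (abs_nonneg _) hp (abs_c y)
    linarith [neg_abs_le (p * c y)]
  exact mul_pos (this _ hp) (this _ hq)

lemma ac {μ ν : Measure T} [IsFiniteMeasure μ] [IsFiniteMeasure ν]
    (hμ : IsLim (P l (r aa 1)) μ) (hν : IsLim (P l (r bb 1)) ν) : μ ≪ ν := by
  refine ac_of (exp (9 * 17)) fun t ht g hg => ?_
  refine le_of_tendsto_of_tendsto' ((hμ g).comp two_top)
    (((hν g).comp two_top).const_mul t⁻¹ |>.const_add _) fun K => ?_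
  have hb : ∀ k, |bb k| < 1 := fun k => by rw [abs_of_nonneg (bb_bd k).1]; exact (bb_bd k).2
  have hH : ∀ k, IsTP (M (J k) + 4) (HH (bb k) (ε (J k))) := fun k => (tp_H _ _).mono (by omega)
  have e := blk hH K
  have bd : ∫ x, ∏ k ∈ range K, HH (bb k) (ε (J k)) (N k • x) ∂m ≤ exp (9 * 17) := by
    rw [e]
    simp only [int_H]
    calc _ ≤ ∏ k ∈ range K, exp (9 * ε (J k) ^ 2) :=
          prod_le_prod (fun _ _ => by positivity) fun k _ => by linarith [add_one_le_exp (9 * ε (J k) ^ 2)]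
      _ ≤ _ := by
          rw [← exp_sum, ← mul_sum]
          exact exp_le_exp.2 (by linarith [sum_ε K])
  have c1 : Continuous fun x : T => ∏ k ∈ range K, HH (bb k) (ε (J k)) (N k • x) :=
    continuous_finsetProd _ fun k _ => (hH k).cont.comp (continuous_nsmul _)
  have c2 := (tp_P l (r aa 1) (2 * K)).cont
  have c3 := (tp_P l (r bb 1) (2 * K)).cont
  refine le_trans ?_ (add_le_add_left (mul_le_mul_of_nonneg_left bd ht.le) _)
  simp only [Function.comp_apply]
  rw [← integral_const_mul, ← integral_const_mul, ← integral_add (cint (by fun_prop) _)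
    (cint (by fun_prop) _)]
  refine integral_mono (cint (by fun_prop) _) (cint (by fun_prop) _) fun x => ?_
  have q := fun k => Q_sq (bb_bd k).1 (bb_bd k).2.le (ε (J k)) (N k • x)
  have qp := fun k => Q_pos (hb k) (hb k) (N k • x)
  refine amgm (hg x).1 (hg x).2 (P_nonneg _ (fun n => (r_bd bb_bd (by simp) n).le) _ _)
    (prod_nonneg fun k _ => nonneg_of_mul_nonneg_right ((sq_nonneg _).trans (q k)) (qp k)) ht ?_
  rw [P_two, P_two, ← prod_pow, ← prod_mul_distrib]
  simp only [one_mul]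
  exact prod_le_prod (fun _ _ => sq_nonneg _) fun k _ => q k

noncomputable def F (j : ℕ) (x : T) : ℝ := 1 - ∏ k ∈ I j, (1 - h (M (J k)) (N k • x))

lemma tp_1h (n : ℕ) : IsTP n fun y => 1 - h n y := by
  simpa [sub_eq_add_neg] using (tp_const n 1).add ((tp_h n).cmul (-1))

lemma F_cont (j : ℕ) : Continuous (F j) :=
  continuous_const.sub (continuous_finsetProd _ fun _ _ => (tp_1h _).cont.comp (continuous_nsmul _))

lemma F_bd (j : ℕ) (x : T) : 0 ≤ F j x ∧ F j x ≤ 1 := by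
  have h0 : ∀ k ∈ I j, 0 ≤ 1 - h (M (J k)) (N k • x) := fun k _ => sub_nonneg.2 (h_bd _ _).2
  exact ⟨sub_nonneg.2 (prod_le_one h0 fun k _ => sub_le_self _ (h_bd _ _).1),
    sub_le_self _ (prod_nonneg h0)⟩

lemma int_F {p : ℕ → ℝ} {μ : Measure T} [IsProbabilityMeasure μ] (hμ : IsLim (P l (r p (-1))) μ)
    (j : ℕ) (a : ℝ) (hp : ∀ k ∈ I j, p k = a) :
    ∫ x, F j x ∂μ = 1 - (1 - ∫ y, h (M j) y * Q a (-1 * (1 - δ j)) y ∂m) ^ (31 * 32 ^ j) := by
  unfold F
  have hc : Continuous fun x : T => ∏ k ∈ I j, (1 - h (M (J k)) (N k • x)) :=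
    continuous_finsetProd _ fun k _ => (tp_1h _).cont.comp (continuous_nsmul _)
  rw [integral_sub (integrable_const _) (cint hc _), lim_prod hμ (I j) fun k => tp_1h _,
    prod_congr rfl fun k hk => by rw [hp k hk, bb, J_eq hk], prod_const, card_I]
  have h1 := (tp_h (M j)).cont
  have h2 := (tp_Q a (-1 * (1 - δ j))).cont
  simp only [sub_mul, one_mul]
  rw [integral_sub (cint h2 _) (cint (by fun_prop) _), int_Q]
  simp

lemma w_M (j : ℕ) : w (M j) * 4 ^ (j + 2) ≤ 1 ∧ 1 ≤ 3 * (w (M j) * 4 ^ (j + 2)) := by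
  have e : (M j : ℝ) = (4 ^ (j + 2)) ^ 2 := by
    rw [M, ← pow_mul, mul_comm, pow_mul]; norm_num
  obtain ⟨h1, h2⟩ := w_bd (M j)
  have h3 := M_ge j
  have h4 := w_nonneg (M j)
  have h5 := sq_nonneg (w (M j))
  refine ⟨le_of_sq_le_sq ?_ zero_le_one, le_of_sq_le_sq ?_ (by positivity)⟩
  · rw [mul_pow, ← e]; nlinarith
  · rw [mul_pow, mul_pow, ← e]; nlinarith

lemma nac {μ ν : Measure T} [IsProbabilityMeasure μ] [IsProbabilityMeasure ν]
    (hμ : IsLim (P l (r aa (-1))) μ) (hν : IsLim (P l (r bb (-1))) ν) : ¬ μ ≪ ν := by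
  refine not_ac F F_cont F_bd ?_ (e := 1 - exp (-(1 / 8))) (by simp) fun j => ?_
  · refine Summable.of_nonneg_of_le (fun j => integral_nonneg fun x => (F_bd j x).1) (fun j => ?_)
      summable_geometric_two
    rw [int_F hν j (1 - δ j) fun k hk => by rw [bb, J_eq hk]]
    have hb := beta_le (M j) (δ_bd j).1.le (by linarith [(δ_bd j).2])
    obtain ⟨β, hβ⟩ : ∃ β, β = ∫ y, h (M j) y * Q (1 - δ j) (-1 * (1 - δ j)) y ∂m := ⟨_, rfl⟩
    rw [← hβ] at hb ⊢
    have h1 : 32 ^ j * (31 * β) ≤ (1 / 2) ^ j := by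
      have h2 : β ≤ 4 / 64 ^ (j + 2) := by
        have h3 := (w_M j).1
        have e : (64 : ℝ) ^ (j + 2) = 4 ^ (j + 2) * M j := by
          rw [M]; push_cast; rw [← mul_pow]; norm_num
        have h4 := M_ge j
        have h5 := w_nonneg (M j)
        refine hb.trans ?_
        rw [δ, e, one_div_mul_eq_div, ← two_mul, ← mul_assoc, ← mul_div_assoc,
          div_le_div_iff₀ (by positivity) (by positivity)]
        nlinarith
      have e : (1 / 2 : ℝ) ^ j = 32 ^ j * (64 ^ j)⁻¹ := by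
        rw [← inv_pow, ← mul_pow]; norm_num
      rw [e]
      refine mul_le_mul_of_nonneg_left ?_ (by positivity)
      rw [pow_add, div_eq_mul_inv, mul_inv] at h2
      have : (0 : ℝ) < (64 ^ j)⁻¹ := by positivity
      nlinarith
    have h6 : β ≤ 1 := by
      have : (1 : ℝ) ≤ 32 ^ j := one_le_pow₀ (by norm_num)
      have : (1 / 2 : ℝ) ^ j ≤ 1 := pow_le_one₀ (by norm_num) (by norm_num)
      nlinarith
    have := one_add_mul_le_pow (a := -β) (by linarith) (31 * 32 ^ j)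
    push_cast at this
    rw [sub_eq_add_neg 1 β]
    nlinarith
  · rw [int_F hμ j (1 - δ j - ε j) fun k hk => by rw [aa, J_eq hk]]
    have d := δ_bd j
    have e := ε_bd j
    have ha := alpha_ge (M j) d.1.le e.1.le (by linarith)
    have h0 : ∫ y, h (M j) y * Q (1 - δ j - ε j) (-1 * (1 - δ j)) y ∂m ≤ 1 := by
      have h1 := (tp_h (M j)).cont
      have h2 := (tp_Q (1 - δ j - ε j) (-1 * (1 - δ j))).cont
      refine le_of_le_of_eq ?_ (int_Q (1 - δ j - ε j) (-1 * (1 - δ j)))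
      refine integral_mono (cint (by fun_prop) _) (cint h2 _) fun y => ?_
      exact mul_le_of_le_one_left (Q_pos (by rw [abs_lt]; constructor <;> linarith)
        (by rw [abs_lt]; constructor <;> linarith) y).le (h_bd _ _).2
    obtain ⟨α, hα⟩ : ∃ α, α = ∫ y, h (M j) y * Q (1 - δ j - ε j) (-1 * (1 - δ j)) y ∂m := ⟨_, rfl⟩
    rw [← hα] at ha h0 ⊢
    have h1 : 1 ≤ 32 ^ j * (192 * α) := by
      have h4 := M_ge j
      have h5 := w_nonneg (M j)
      have h6 : 9 * (w (M j) / (M j + 1)) ≤ w (M j) / 2 := by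
        rw [← mul_div_assoc, div_le_div_iff₀ (by positivity) (by positivity)]; nlinarith
      have h7 : ε j * (w (M j) / 2) ≤ α := (mul_le_mul_of_nonneg_left (by linarith) e.1.le).trans ha
      have h8 := (w_M j).2
      have e1 : (32 : ℝ) ^ j * (1 / 8) ^ j = 4 ^ j := by rw [← mul_pow]; norm_num
      calc (1 : ℝ) ≤ 32 ^ j * (192 * (ε j * (w (M j) / 2))) := by
            rw [ε]; rw [pow_add] at h8
            calc (1 : ℝ) ≤ _ := h8
              _ = _ := by rw [← e1]; ring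
        _ ≤ _ := by gcongr
    have h2 : (1 - α) ^ (31 * 32 ^ j) ≤ exp (-α) ^ (31 * 32 ^ j) :=
      pow_le_pow_left₀ (by linarith) (by linarith [add_one_le_exp (-α)]) _
    rw [← exp_nat_mul] at h2
    have h3 : exp (((31 * 32 ^ j : ℕ) : ℝ) * -α) ≤ exp (-(1 / 8)) := by
      refine exp_le_exp.2 ?_
      push_cast; nlinarith
    linarith

end Pool.Agent.H.MP_b30265_an
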